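import Pool.Agent.Helper74.UB.Goals3

set_option autoImplicit false

namespace Pool.Agent.Helper75.UB

open Finset Equiv Helper28.VF
open Pool.Agent.Helper74.UB
open scoped Classical

theorem strip_uniq {V D E F : Type} [Fintype V] [Fintype D] [Fintype E] [Fintype F]
    {M : PM D V E F} {row : V → ℤ} {d : D} {y z : ℤ} (h1 : InStrip M row d y)
    (h2 : InStrip M row d z) : y = z := by
  obtain ⟨a, ⟨e1, f1, g1⟩, ⟨e2, f2, g2⟩⟩ := h1
  obtain ⟨b, ⟨e3, f3, g3⟩, ⟨e4, f4, g4⟩⟩ := h2
  have k1 := b e1 f1
  have k2 := b e2 f2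
  omega

theorem strip_row {V D E F : Type} [Fintype V] [Fintype D] [Fintype E] [Fintype F]
    {M : PM D V E F} {row : V → ℤ} {d : D} {y : ℤ} (h1 : InStrip M row d y) :
    row (M.vt d) = y ∨ row (M.vt d) = y + 1 := h1.1 d rfl

section FlatZ

variable {V : Type} {L : Lay V} {N h : ℕ} {f : ℤ → ZMod N → V}

/-- The rule of a square strip, for an integer row. -/
theorem flat_upS (hFl : Flat L N h f) (r : ℤ) (i : ZMod N) (k : V) (h0 : 0 ≤ r) (h1 : r < h)
    (he : Even r) : L.up (f r i) k ↔ k = f (r + 1) i := by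
  obtain ⟨n, rfl⟩ := Int.eq_ofNat_of_zero_le h0
  exact hFl.upS n i k (Nat.zero_le _) (by exact_mod_cast h1) (by exact_mod_cast he)

/-- The rule of a triangle strip, for an integer row. -/
theorem flat_upT (hFl : Flat L N h f) (r : ℤ) (i : ZMod N) (k : V) (h0 : 0 ≤ r) (h1 : r < h)
    (he : ¬ Even r) : L.up (f r i) k ↔ k = f (r + 1) i ∨ k = f (r + 1) (i + 1) := by
  obtain ⟨n, rfl⟩ := Int.eq_ofNat_of_zero_le h0
  exact hFl.upT n i k (Nat.zero_le _) (by exact_mod_cast h1) (by exact_mod_cast he)

/-- Injectivity, for an integer row. -/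
theorem flat_inj (hFl : Flat L N h f) (r : ℤ) (i j : ZMod N) (h0 : 0 ≤ r) (h1 : r ≤ h)
    (he : f r i = f r j) : i = j := by
  obtain ⟨n, rfl⟩ := Int.eq_ofNat_of_zero_le h0
  exact hFl.inj n i j (Nat.zero_le _) (by exact_mod_cast h1) he

end FlatZ

/-- The weight of a dart. -/
noncomputable def wt {V D E F : Type} [Fintype V] [Fintype D] [Fintype E] [Fintype F]
    (M : PM D V E F) (d : D) : ℕ := if T3 M d then 1 else 2

theorem wt_le {V D E F : Type} [Fintype V] [Fintype D] [Fintype E] [Fintype F]
    (M : PM D V E F) (d : D) : wt M d ≤ 2 := by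
  unfold wt
  split_ifs <;> omega

theorem wt_one {V D E F : Type} [Fintype V] [Fintype D] [Fintype E] [Fintype F]
    {M : PM D V E F} {d : D} (h : T3 M d ∨ T4 M d) (h' : ¬ T4 M d) : wt M d ≤ 1 := by
  unfold wt
  rw [if_pos (h.resolve_right h')]

theorem key {V D E F : Type} [Fintype V] [Fintype D] [Fintype E] [Fintype F] {L : Lay V}
    {M : PM D V E F} {dE dW : V → D} {dU dN : V → V → D} (hM : LM L M dE dW dU dN) (v : V)
    (cE cW cU cN nU nN : ℕ) (hE : wt M (dE v) ≤ cE) (hW : wt M (dW (L.e.symm v)) ≤ cW)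
    (hU : ∀ k, L.up v k → wt M (dU v k) ≤ cU) (hN : ∀ u, L.up u v → wt M (dN u v) ≤ cN)
    (bU : (univ.filter fun k => L.up v k).card ≤ nU)
    (bN : (univ.filter fun u => L.up u v).card ≤ nN)
    (ht : cE + cW + nU * cU + nN * cN ≤ 7) : link M v ≤ 7 := by
  have h0 : link M v = ∑ d ∈ univ.filter (fun d => M.vt d = v), wt M d := rfl
  have hsub : univ.filter (fun d => M.vt d = v) ⊆
      (({dE v} ∪ {dW (L.e.symm v)}) ∪ (univ.filter fun k => L.up v k).image (dU v)) ∪
        (univ.filter fun u => L.up u v).image (fun u => dN u v) := by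
    intro d hd
    rw [mem_filter] at hd
    have hv := hd.2
    rcases hM.cov d with ⟨w, rfl⟩ | ⟨w, rfl⟩ | ⟨w, k, hk, rfl⟩ | ⟨w, k, hk, rfl⟩
    · rw [hM.vE] at hv
      subst hv
      simp
    · rw [hM.vW] at hv
      subst hv
      simp
    · rw [hM.vU w k hk] at hv
      subst hv
      rw [mem_union, mem_union]
      left; right
      rw [mem_image]
      exact ⟨k, by simp [hk], rfl⟩
    · rw [hM.vN w k hk] at hv
      subst hv
      rw [mem_union]
      right
      rw [mem_image]
      exact ⟨w, by simp [hk], rfl⟩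
  have hun : ∀ s t : Finset D, ∑ d ∈ s ∪ t, wt M d ≤ ∑ d ∈ s, wt M d + ∑ d ∈ t, wt M d := by
    intro s t
    rw [← Finset.sum_union_inter]
    exact Nat.le_add_right _ _
  have h1 : ∑ d ∈ (univ.filter fun k => L.up v k).image (dU v), wt M d ≤ nU * cU := by
    calc ∑ d ∈ (univ.filter fun k => L.up v k).image (dU v), wt M d
        ≤ ((univ.filter fun k => L.up v k).image (dU v)).card • cU := by
          refine Finset.sum_le_card_nsmul _ _ _ ?_
          intro d hd
          rw [mem_image] at hd
          obtain ⟨k, hk, rfl⟩ := hd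
          exact hU k (mem_filter.1 hk).2
      _ = ((univ.filter fun k => L.up v k).image (dU v)).card * cU := by rw [smul_eq_mul]
      _ ≤ nU * cU := Nat.mul_le_mul_right _ (card_image_le.trans bU)
  have h2 : ∑ d ∈ (univ.filter fun u => L.up u v).image (fun u => dN u v), wt M d
      ≤ nN * cN := by
    calc ∑ d ∈ (univ.filter fun u => L.up u v).image (fun u => dN u v), wt M d
        ≤ ((univ.filter fun u => L.up u v).image (fun u => dN u v)).card • cN := by
          refine Finset.sum_le_card_nsmul _ _ _ ?_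
          intro d hd
          rw [mem_image] at hd
          obtain ⟨k, hk, rfl⟩ := hd
          exact hN k (mem_filter.1 hk).2
      _ = ((univ.filter fun u => L.up u v).image (fun u => dN u v)).card * cN := by
          rw [smul_eq_mul]
      _ ≤ nN * cN := Nat.mul_le_mul_right _ (card_image_le.trans bN)
  have h3 : ∑ d ∈ ({dE v} : Finset D), wt M d ≤ cE := by
    rw [sum_singleton]; exact hE
  have h4 : ∑ d ∈ ({dW (L.e.symm v)} : Finset D), wt M d ≤ cW := by
    rw [sum_singleton]; exact hW
  have h5 := Finset.sum_le_sum_of_subset (f := fun d => wt M d) hsub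
  have h6 := hun ((({dE v} : Finset D) ∪ {dW (L.e.symm v)}) ∪
    (univ.filter fun k => L.up v k).image (dU v))
    ((univ.filter fun u => L.up u v).image (fun u => dN u v))
  have h7 := hun (({dE v} : Finset D) ∪ {dW (L.e.symm v)})
    ((univ.filter fun k => L.up v k).image (dU v))
  have h8 := hun ({dE v} : Finset D) {dW (L.e.symm v)}
  rw [h0]
  omega

theorem opp {V D E F : Type} [Fintype V] [Fintype D] [Fintype E] [Fintype F] {L : Lay V}
    {M : PM D V E F} {dE dW : V → D} {dU dN : V → V → D} (hA : L.Ax)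
    (hM : LM L M dE dW dU dN) (d : D) : M.vt (ph M (ph M d)) ≠ M.vt d := by
  have rs : ∀ v, L.row (L.e.symm v) = L.row v := by
    intro v
    have := hA.row_e (L.e.symm v)
    rw [Equiv.apply_symm_apply] at this
    exact this.symm
  have es1 : ∀ v, L.e.symm v ≠ v := by
    intro v hv
    apply hA.e1 v
    conv_lhs => rw [← hv]
    rw [Equiv.apply_symm_apply]
  rcases hM.cov d with ⟨v, rfl⟩ | ⟨v, rfl⟩ | ⟨v, k, hk, rfl⟩ | ⟨v, k, hk, rfl⟩
  · by_cases hr : L.row v = L.r1
    · rw [hM.E1 v hr, hM.E1 (L.e v) (by rw [hA.row_e, hr]), hM.vE, hM.vE]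
      exact hA.e2 v
    · have hlt : L.row (L.e v) < L.r1 := by
        rw [hA.row_e]
        exact lt_of_le_of_ne (hA.bnd v).2 hr
      obtain ⟨k, ⟨hk1, hk2⟩, -⟩ := hA.ul (L.e v) hlt
      have hrow := hA.up_row _ _ hk1
      rw [hA.row_e] at hrow
      have hkv : k ≠ v := by
        rintro rfl
        omega
      rw [hM.E2 v k hk1 hk2, hM.vE]
      by_cases hc : L.up (L.e.symm (L.e v)) k
      · rw [hM.U1 _ _ hk1 hc, hM.vN _ _ hc]
        exact hkv
      · rw [hM.U2 _ _ hk1 hc, hM.vW, Equiv.apply_symm_apply]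
        exact hkv
  · by_cases hr : L.row v = L.r0
    · rw [hM.W1 v hr, hM.W1 (L.e.symm v) (by rw [rs, hr]), hM.vW, hM.vW,
        Equiv.apply_symm_apply]
      intro h
      apply hA.e2 v
      rw [← h, Equiv.apply_symm_apply]
    · have hlt : L.r0 < L.row v := lt_of_le_of_ne (hA.bnd v).1 (Ne.symm hr)
      obtain ⟨u, ⟨hu1, hu2⟩, -⟩ := hA.dr v hlt
      have hrow := hA.up_row _ _ hu1
      have hne : u ≠ L.e v := by
        intro h
        rw [h, hA.row_e] at hrow
        omega
      rw [hM.W2 u v hu1 hu2, hM.vW]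
      by_cases hc : L.up u (L.e v)
      · rw [hM.N1 _ _ hu1 hc, hM.vU _ _ hc]
        exact hne
      · rw [hM.N2 _ _ hu1 hc, hM.vE]
        exact hne
  · have hrow := hA.up_row _ _ hk
    rw [hM.vU v k hk]
    by_cases hc : L.up (L.e.symm v) k
    · rw [hM.U1 _ _ hk hc]
      by_cases hd : L.up (L.e.symm v) (L.e k)
      · rw [hM.N1 _ _ hc hd, hM.vU _ _ hd]
        exact es1 v
      · rw [hM.N2 _ _ hc hd, hM.vE]
        exact es1 v
    · rw [hM.U2 _ _ hk hc]
      have hlt : L.r0 < L.row (L.e.symm k) := by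
        rw [rs]
        have := (hA.bnd v).1
        omega
      obtain ⟨u, ⟨hu1, hu2⟩, -⟩ := hA.dr _ hlt
      rw [hM.W2 _ _ hu1 hu2, hM.vN _ _ hu1]
      intro h
      have := rs k
      rw [h] at this
      omega
  · have hrow := hA.up_row _ _ hk
    rw [hM.vN v k hk]
    by_cases hc : L.up v (L.e k)
    · rw [hM.N1 _ _ hk hc]
      by_cases hd : L.up (L.e.symm v) (L.e k)
      · rw [hM.U1 _ _ hc hd, hM.vN _ _ hd]
        exact hA.e1 k
      · rw [hM.U2 _ _ hc hd, hM.vW, Equiv.apply_symm_apply]
        exact hA.e1 k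
    · rw [hM.N2 _ _ hk hc]
      have hlt : L.row (L.e v) < L.r1 := by
        rw [hA.row_e]
        have := (hA.bnd k).2
        omega
      obtain ⟨k', ⟨hk1, hk2⟩, -⟩ := hA.ul (L.e v) hlt
      rw [hM.E2 v k' hk1 hk2, hM.vU _ _ hk1]
      intro h
      have := hA.row_e v
      rw [h] at this
      omega

theorem hsmall (hLA : StmtLayAd) (hST : StmtStrip) : StmtHSmall := by
  intro K h V D E F _ _ _ _ L f M dE dW dU dN H hM
  have hA := H.ax
  obtain ⟨-, hnl, hsim⟩ := hLA V D E F L M dE dW dU dN hA hM
  obtain ⟨s1, s2, s3, -, hT, s6⟩ := hST K h V D E F L f M dE dW dU dN H hM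
  refine ⟨⟨hnl, hsim, hT, opp hA hM⟩, ?_⟩
  have hK := H.K1
  have hK' : (1 : ℤ) ≤ K := by exact_mod_cast hK
  have hr0 := H.r0
  have hr1 := H.r1
  have rs : ∀ v, L.row (L.e.symm v) = L.row v := by
    intro v
    have := hA.row_e (L.e.symm v)
    rw [Equiv.apply_symm_apply] at this
    exact this.symm
  have tE : ∀ v, T4 M (dE v) → 0 ≤ L.row v ∧ L.row v < h ∧ Even (L.row v) := by
    intro v hv
    obtain ⟨y, hy0, hyh, hye, hs⟩ := (s6 _).1 hv
    rcases lt_or_ge (L.row v) L.r1 with hlt | hge
    · have := strip_uniq (s1 v hlt) hs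
      subst this
      exact ⟨hy0, hyh, hye⟩
    · exfalso
      have h1 := strip_row hs
      rw [hM.vE] at h1
      omega
  have tW : ∀ v, T4 M (dW v) → 0 ≤ L.row v - 1 ∧ L.row v - 1 < h ∧ Even (L.row v - 1) := by
    intro v hv
    obtain ⟨y, hy0, hyh, hye, hs⟩ := (s6 _).1 hv
    rcases lt_or_ge L.r0 (L.row v) with hlt | hge
    · have := strip_uniq (s2 v hlt) hs
      subst this
      exact ⟨hy0, hyh, hye⟩
    · exfalso
      have h1 := strip_row hs
      rw [hM.vW, hA.row_e] at h1
      omega
  have tU : ∀ v k, L.up v k → T4 M (dU v k) → 0 ≤ L.row v ∧ L.row v < h ∧ Even (L.row v) := by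
    intro v k hk hv
    obtain ⟨y, hy0, hyh, hye, hs⟩ := (s6 _).1 hv
    have := strip_uniq (s3 v k hk).1 hs
    subst this
    exact ⟨hy0, hyh, hye⟩
  have tN : ∀ v k, L.up v k → T4 M (dN v k) → 0 ≤ L.row v ∧ L.row v < h ∧ Even (L.row v) := by
    intro v k hk hv
    obtain ⟨y, hy0, hyh, hye, hs⟩ := (s6 _).1 hv
    have := strip_uniq (s3 v k hk).2 hs
    subst this
    exact ⟨hy0, hyh, hye⟩
  intro v
  have hFl := H.flat
  have c2 : ∀ {s : Finset V} {a b : V}, (∀ x ∈ s, x = a ∨ x = b) → s.card ≤ 2 := by
    intro s a b hs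
    have : s ⊆ {a, b} := by
      intro x hx
      simpa using hs x hx
    exact (card_le_card this).trans (card_le_two)
  have c1 : ∀ {s : Finset V} {a : V}, (∀ x ∈ s, x = a) → s.card ≤ 1 := by
    intro s a hs
    have : s ⊆ {a} := by
      intro x hx
      simpa using hs x hx
    exact (card_le_card this).trans (by simp)
  -- lower neighbours
  have lowT : 0 < L.row v → L.row v ≤ h → ¬ Even (L.row v - 1) →
      (univ.filter fun u => L.up u v).card ≤ 2 := by
    intro h1 h2 h3
    obtain ⟨j, hj⟩ := hFl.surj v (by omega) h2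
    refine c2 (a := f (L.row v - 1) j) (b := f (L.row v - 1) (j - 1)) ?_
    intro u hu
    have hu := (mem_filter.1 hu).2
    have hru := hA.up_row u v hu
    obtain ⟨i, hi⟩ := hFl.surj u (by omega) (by omega)
    have e1 : L.row u = L.row v - 1 := by omega
    rw [e1] at hi
    rw [← hi] at hu
    rw [flat_upT hFl (L.row v - 1) i v (by omega) (by omega) h3] at hu
    rw [sub_add_cancel] at hu
    rcases hu with hu | hu
    · left
      rw [← hj] at hu
      have hrj : L.row (f (L.row v) j) = L.row v := by rw [hj]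
      rw [hrj] at hu
      have := flat_inj hFl _ _ _ (by omega) h2 hu
      rw [← hi, this]
    · right
      rw [← hj] at hu
      have hrj : L.row (f (L.row v) j) = L.row v := by rw [hj]
      rw [hrj] at hu
      have := flat_inj hFl _ _ _ (by omega) h2 hu
      rw [← hi, this, add_sub_cancel_right]
  have lowS : 0 < L.row v → L.row v ≤ h → Even (L.row v - 1) →
      (univ.filter fun u => L.up u v).card ≤ 1 := by
    intro h1 h2 h3
    obtain ⟨j, hj⟩ := hFl.surj v (by omega) h2
    refine c1 (a := f (L.row v - 1) j) ?_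
    intro u hu
    have hu := (mem_filter.1 hu).2
    have hru := hA.up_row u v hu
    obtain ⟨i, hi⟩ := hFl.surj u (by omega) (by omega)
    have e1 : L.row u = L.row v - 1 := by omega
    rw [e1] at hi
    rw [← hi] at hu
    rw [flat_upS hFl (L.row v - 1) i v (by omega) (by omega) h3] at hu
    rw [sub_add_cancel] at hu
    rw [← hj] at hu
    have hrj : L.row (f (L.row v) j) = L.row v := by rw [hj]
    rw [hrj] at hu
    have := flat_inj hFl _ _ _ (by omega) h2 hu
    rw [← hi, this]
  have uppT : 0 ≤ L.row v → L.row v < h → ¬ Even (L.row v) →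
      (univ.filter fun k => L.up v k).card ≤ 2 := by
    intro h1 h2 h3
    obtain ⟨j, hj⟩ := hFl.surj v h1 h2.le
    refine c2 (a := f (L.row v + 1) j) (b := f (L.row v + 1) (j + 1)) ?_
    intro k hk
    have hk := (mem_filter.1 hk).2
    rw [← hj] at hk
    exact (flat_upT hFl _ j k h1 h2 h3).1 hk
  have uppS : 0 ≤ L.row v → L.row v < h → Even (L.row v) →
      (univ.filter fun k => L.up v k).card ≤ 1 := by
    intro h1 h2 h3
    obtain ⟨j, hj⟩ := hFl.surj v h1 h2.le
    refine c1 (a := f (L.row v + 1) j) ?_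
    intro k hk
    have hk := (mem_filter.1 hk).2
    rw [← hj] at hk
    exact (flat_upS hFl _ j k h1 h2 h3).1 hk
  have hodd : ¬ Even (h : ℤ) := by
    rw [Int.not_even_iff_odd]
    exact_mod_cast H.hodd
  rcases lt_or_ge (L.row v) 0 with hneg | hnn
  · -- below
    refine key hM v 1 1 1 1 3 2 ?_ ?_ ?_ ?_ (H.up3 v) (H.dn2 v hneg.le) (by norm_num)
    · exact wt_one (hT _) (fun c => by have := tE v c; omega)
    · exact wt_one (hT _) (fun c => by have := tW _ c; rw [rs] at this; omega)
    · intro k hk
      exact wt_one (hT _) (fun c => by have := tU v k hk c; omega)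
    · intro u hu
      have := hA.up_row u v hu
      exact wt_one (hT _) (fun c => by have := tN u v hu c; omega)
  · rcases lt_or_ge (h : ℤ) (L.row v) with habove | hle
    · refine key hM v 1 1 1 1 2 3 ?_ ?_ ?_ ?_ (H.up2 v habove.le) (H.dn3 v) (by norm_num)
      · exact wt_one (hT _) (fun c => by have := tE v c; omega)
      · exact wt_one (hT _) (fun c => by have := tW _ c; rw [rs] at this; omega)
      · intro k hk
        exact wt_one (hT _) (fun c => by have := tU v k hk c; omega)
      · intro u hu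
        have := hA.up_row u v hu
        exact wt_one (hT _) (fun c => by have := tN u v hu c; omega)
    · by_cases hev : Even (L.row v)
      · have hlt : L.row v < h := by
          refine lt_of_le_of_ne hle ?_
          intro e
          rw [e] at hev
          exact hodd hev
        have hno : ¬ Even (L.row v - 1) := by
          intro e
          have := (Int.even_sub.1 e).1 hev
          exact absurd this (by decide)
        refine key hM v 2 1 2 1 1 2 (wt_le _ _) ?_ (fun k _ => wt_le _ _) ?_
          (uppS hnn hlt hev) ?_ (by norm_num)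
        · exact wt_one (hT _) (fun c => by have := tW _ c; rw [rs] at this; exact hno this.2.2)
        · intro u hu
          have hru := hA.up_row u v hu
          refine wt_one (hT _) (fun c => ?_)
          have := (tN u v hu c).2.2
          apply hno
          have e : L.row v - 1 = L.row u := by omega
          rw [e]
          exact this
        · rcases hnn.eq_or_lt with h0 | hpos
          · exact H.dn2 v (by omega)
          · exact lowT hpos hle hno
      · have hpos : 0 < L.row v := by
          refine lt_of_le_of_ne hnn ?_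
          intro e
          rw [← e] at hev
          exact hev (by decide)
        have hev' : Even (L.row v - 1) := by
          rw [Int.even_sub]
          constructor
          · intro e
            exact absurd e hev
          · intro e
            exact absurd e (by decide)
        refine key hM v 1 2 1 2 2 1 ?_ (wt_le _ _) ?_ (fun u _ => wt_le _ _) ?_
          (lowS hpos hle hev') (by norm_num)
        · exact wt_one (hT _) (fun c => hev (tE v c).2.2)
        · intro k hk
          exact wt_one (hT _) (fun c => hev (tU v k hk c).2.2)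
        · rcases hle.eq_or_lt with hh | hlt
          · exact H.up2 v hh.ge
          · exact uppT hnn hlt hev

end Pool.Agent.Helper75.UB
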